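import Pool.Agent.W68.GapMain

/-!
# Every sequence of positive integers has a sum subsystem of consecutive prime gaps

Let `d_0, d_1, …` be any sequence of positive integers. There are nonempty finite sets `W_0 < W_1 < …` of
indices such that, with `x_i` the sum of the `d_a`, `a ∈ W_i`, and `x_F` the sum of the `x_i`, `i ∈ F`, EVERY
vector `(x_{F_0}, x_{F_1}, …, x_{F_{k-1}})` with `k ≥ 0` and nonempty finite `F_0 < F_1 < … < F_{k-1}` is a
vector of `k` consecutive prime gaps, infinitely often, in a given residue class of the first prime, and the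
block of `k + 1` consecutive primes is isolated by any given distance `R` on both sides. The theorem does this for
countably many sequences `d_j`, moduli `q_j` and residues `r_j` with the same `W_i` (the sets `F_l` being taken
in `[j, ∞)` for the `j`-th sequence).

The infinite exact pattern theorem of the starting files (`Pool.Agent.H361R2.Inf.exact_infinite`) is combined
with an infinite dimensional version of Hindman's theorem (Milliken) for closed families of block sequences,
proved in `Pool.Agent.W68.Mil` and `Pool.Agent.W68.Mil2`.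
-/

namespace Pool.Agent.Results.MP_3ec731_nt.GapSumSystem

theorem result (d : ℕ → ℕ → ℕ) (hd : ∀ j a, 1 ≤ d j a) (q : ℕ → ℕ) (hq : ∀ j, 1 ≤ q j)
    (r : ℕ → ℤ) (hr : ∀ j, IsCoprime (r j) (q j : ℤ)) :
    ∃ W : ℕ → Finset ℕ, (∀ i, (W i).Nonempty) ∧ (∀ i, ∀ a ∈ W i, ∀ b ∈ W (i + 1), a < b) ∧
      ∀ (j k : ℕ) (F : ℕ → Finset ℕ), (∀ l < k, (F l).Nonempty) → (∀ l < k, ∀ i ∈ F l, j ≤ i) →
        (∀ l, l + 1 < k → ∀ i ∈ F l, ∀ i' ∈ F (l + 1), i < i') →
        ∀ R : ℕ, {n : ℕ | (n : ℤ) ≡ r j [ZMOD q j] ∧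
          ∀ y : ℤ, |y| ≤ R → (Nat.Prime ((n : ℤ) + y).toNat ↔
            ∃ m ≤ k, y = ∑ l ∈ Finset.range m, ∑ i ∈ F l, ∑ a ∈ W i, (d j a : ℤ))}.Infinite :=
  Pool.Agent.W68.Gap.main_gaps d hd q hq r hr

end Pool.Agent.Results.MP_3ec731_nt.GapSumSystem
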