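import Pool.Agent.W68.HerShift

/-!
# Every infinite set of integers contains an infinite set all of whose finite subsets are realised

Given countably many injective maps `φ_j` from the natural numbers to the integers, moduli `q_j` and residues
`r_j`, there is one increasing sequence `b` such that for every `j` EVERY set of the form `φ_j (b_i)`, `i` in a
(finite or infinite) set `I` of indices `≥ j` compatible with the residue class `r_j` modulo `q_j`, is an exact
prime pattern: for every `R` there are infinitely many `n ≡ r_j` modulo `q_j` such that the primes within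
distance `R` of `n` are exactly the numbers `n + φ_j (b_i)`, `i ∈ I`, at distance at most `R` from `n`.

In particular (`q_0 = 1`, `φ_0` an enumeration of an infinite set `A`): every infinite set `A` of integers contains
an infinite set `B` such that every finite nonempty subset of `B` is the pattern of infinitely many blocks of
consecutive primes.

The infinite exact pattern theorem of the starting files (`Pool.Agent.H361R2.Inf.exact_infinite`) is combined
with Ellentuck's theorem (`Pool.Agent.H38R3.Ell.EO.cr`) and a diagonal argument.
-/

namespace Pool.Agent.Results.MP_3ec731_nt.HereditaryPatterns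

theorem result (φ : ℕ → ℕ → ℤ) (hφ : ∀ j, Function.Injective (φ j)) (q : ℕ → ℕ)
    (hq : ∀ j, 1 ≤ q j) (r : ℕ → ℤ) :
    ∃ b : ℕ → ℕ, StrictMono b ∧ ∀ (j : ℕ) (I : Set ℕ),
      (∀ i ∈ I, j ≤ i ∧ IsCoprime (r j + φ j (b i)) (q j : ℤ)) →
      ∀ R : ℕ, {n : ℕ | (n : ℤ) ≡ r j [ZMOD q j] ∧
        ∀ y : ℤ, |y| ≤ R → (Nat.Prime ((n : ℤ) + y).toNat ↔ ∃ i ∈ I, φ j (b i) = y)}.Infinite :=
  Pool.Agent.W68.Her.main_shifts φ hφ q hq r

end Pool.Agent.Results.MP_3ec731_nt.HereditaryPatterns
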