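import Mathlib
import Pool.Agent.H362R2.RQ.Fin
import Pool.Agent.W142.OP.Main

set_option autoImplicit false

/-!
# Order patterns of consecutive prime gaps

The coloured Maynard-Tao theorem inside the record windows (`Pool.Agent.H362R2.RQ.stRQ` of the starting files,
helper362 and others) is run on shifts arranged in blocks, the blocks and the shifts of a block at rapidly
increasing distances. Whatever subset of the shifts gives primes, at least two blocks contain many primes,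
and this forces the order patterns.
-/

open Filter

namespace Pool.Agent.Results.MP_3ec731_nt.OrderPatterns

/-- The record scale `f(x) = log x (log₂ x)² log₄ x / (log₃ x)²` (iterated natural logarithms). -/
noncomputable def f (x : ℝ) : ℝ :=
  Real.log x * (Real.log (Real.log x)) ^ 2 * Real.log (Real.log (Real.log (Real.log x))) /
    (Real.log (Real.log (Real.log x))) ^ 2

/-- The `i`-th prime (`p 0 = 2`). -/
noncomputable def p (i : ℕ) : ℕ := Nat.nth Nat.Prime i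

/-- The gap after the `i`-th prime. -/
noncomputable def d (i : ℕ) : ℕ := p (i + 1) - p i

/-- The property `Q` of `k + 1` consecutive gaps `d i, ..., d (i + k)` occurs at all scales: there is `c > 0`
such that for every squarefree `q`, every `a` prime to `q`, all large `X` and all `H` with
`log X ≤ H ≤ c f(X)` there are at least `X^(7/8)` indices `i` such that the primes
`p i, ..., p (i + k + 1)` lie in `(X, 4X]` and are `≡ a (mod q)`, the gaps `d i, ..., d (i + k)` lie in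
`[c H, H]` and have the property `Q`. -/
def Occurs (k : ℕ) (Q : (ℕ → ℕ) → Prop) : Prop :=
  ∃ c : ℝ, 0 < c ∧ ∀ q a : ℕ, Squarefree q → a.Coprime q → ∃ X₀ : ℝ, ∀ X : ℝ, X₀ ≤ X →
    ∀ H : ℝ, Real.log X ≤ H → H ≤ c * f X →
    X ^ (7 / 8 : ℝ) ≤ ({i : ℕ | X < p i ∧ (p (i + k + 1) : ℝ) ≤ 4 * X ∧
      (∀ l ≤ k + 1, p (i + l) ≡ a [MOD q]) ∧ (∀ l ≤ k, c * H ≤ d (i + l) ∧ (d (i + l) : ℝ) ≤ H) ∧
      Q (fun l => d (i + l))}.ncard : ℝ)

/-- On `[i, j]` each term of `g` is more than `A` times the preceding one. -/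
def Inc (A : ℕ) (g : ℕ → ℕ) (i j : ℕ) : Prop := ∀ l, i ≤ l → l < j → A * g l < g (l + 1)

/-- Seven order patterns of `g 0, ..., g k`, all inequalities with a factor `A`. The first six are
`1 2 ... k+1`; `2 3 ... k+1 1`; `k+1 1 2 ... k`; `1 2 ... k-1 k+1 k`; `1 k+1 2 3 ... k`; `k k+1 1 2 ... k-1`.
The last one: `k - 2` ascents, a descent, an ascent. -/
def Shape (A k : ℕ) (T : Fin 7) (g : ℕ → ℕ) : Prop :=
  (T = 0 ∧ Inc A g 0 k) ∨
  (T = 1 ∧ Inc A g 0 (k - 1) ∧ A * g k < g 0) ∨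
  (T = 2 ∧ Inc A g 1 k ∧ A * g k < g 0) ∨
  (T = 3 ∧ Inc A g 0 (k - 1) ∧ A * g (k - 2) < g k ∧ A * g k < g (k - 1)) ∨
  (T = 4 ∧ A * g 0 < g 2 ∧ Inc A g 2 k ∧ A * g k < g 1) ∨
  (T = 5 ∧ A * g 0 < g 1 ∧ Inc A g 2 k ∧ A * g k < g 0) ∨
  (T = 6 ∧ Inc A g 0 (k - 2) ∧ A * g (k - 1) < g (k - 2) ∧ A * g (k - 1) < g k)

theorem Occurs.mono (k : ℕ) (Q Q' : (ℕ → ℕ) → Prop) (h : Occurs k Q) (hQ : ∀ g, Q g → Q' g) : Occurs k Q' := by
  obtain ⟨c, hc, h1⟩ := h
  refine ⟨c, hc, fun q a hq ha => ?_⟩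
  obtain ⟨X₀, h2⟩ := h1 q a hq ha
  refine ⟨X₀, fun X hX H hH1 hH2 => (h2 X hX H hH1 hH2).trans ?_⟩
  obtain ⟨A, hA⟩ : ∃ A : ((ℕ → ℕ) → Prop) → Set ℕ, A = fun Q => {i : ℕ | X < p i ∧ (p (i + k + 1) : ℝ) ≤ 4 * X ∧
      (∀ l ≤ k + 1, p (i + l) ≡ a [MOD q]) ∧ (∀ l ≤ k, c * H ≤ d (i + l) ∧ (d (i + l) : ℝ) ≤ H) ∧
      Q (fun l => d (i + l))} := ⟨_, rfl⟩
  have hfin : (A Q').Finite := by
    apply (Set.finite_Iic ⌊4 * X⌋₊).subset
    intro i hi
    rw [hA] at hi
    rw [Set.mem_Iic]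
    apply Nat.le_floor
    have h1 : i + k + 1 ≤ Nat.nth Nat.Prime (i + k + 1) :=
      (Nat.nth_strictMono Nat.infinite_setOfPred_prime).le_apply
    have h2 : ((i + k + 1 : ℕ) : ℝ) ≤ 4 * X := le_trans (by exact_mod_cast h1) hi.2.1
    refine le_trans ?_ h2
    exact_mod_cast (by omega : i ≤ i + k + 1)
  have hsub : A Q ⊆ A Q' := by
    rw [hA]
    exact fun i hi => ⟨hi.1, hi.2.1, hi.2.2.1, hi.2.2.2.1, hQ _ hi.2.2.2.2⟩
  have h3 := Set.ncard_le_ncard hsub hfin
  rw [hA] at h3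
  exact_mod_cast h3

/-- the seven patterns and their reversals -/
theorem shapes (A k : ℕ) (hk : 2 ≤ k) (T : Fin 7) :
    Occurs k (Shape A k T) ∧ Occurs k (fun g => Shape A k T (fun l => g (k - l))) := by
  obtain ⟨c, hc, h⟩ := Pool.Agent.W142.OP.occurs Pool.Agent.H362R2.RQ.stRQ A k hk
  have hX0 : ∀ g, Pool.Agent.W142.OP.Shape A k g T → Shape A k T g := by
    intro g hg
    fin_cases T
    · exact Or.inl ⟨rfl, hg⟩
    · exact Or.inr (Or.inl ⟨rfl, hg⟩)
    · exact Or.inr (Or.inr (Or.inl ⟨rfl, hg⟩))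
    · exact Or.inr (Or.inr (Or.inr (Or.inl ⟨rfl, hg⟩)))
    · exact Or.inr (Or.inr (Or.inr (Or.inr (Or.inl ⟨rfl, hg⟩))))
    · exact Or.inr (Or.inr (Or.inr (Or.inr (Or.inr (Or.inl ⟨rfl, hg⟩)))))
    · exact Or.inr (Or.inr (Or.inr (Or.inr (Or.inr (Or.inr ⟨rfl, hg⟩)))))
  constructor
  · refine Occurs.mono k (fun g => Pool.Agent.W142.OP.Shape A k g T) _ ?_ hX0
    refine ⟨c, hc, fun q a hq ha => ?_⟩
    obtain ⟨X₀, h2⟩ := eventually_atTop.1 (h q a hq ha)
    exact ⟨X₀, fun X hX H hH1 hH2 => h2 X hX H hH1 hH2 false T⟩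
  · refine Occurs.mono k (fun g => Pool.Agent.W142.OP.Shape A k (fun l => g (k - l)) T) _ ?_ (fun g => hX0 _)
    refine ⟨c, hc, fun q a hq ha => ?_⟩
    obtain ⟨X₀, h2⟩ := eventually_atTop.1 (h q a hq ha)
    exact ⟨X₀, fun X hX H hH1 hH2 => h2 X hX H hH1 hH2 true T⟩

theorem exp2 (A : ℕ) : Occurs 2 (fun g => A * g 0 < g 1 ∧ A * g 1 < g 2) ∧
    Occurs 2 (fun g => A * g 0 < g 1 ∧ A * g 2 < g 0) ∧
    Occurs 2 (fun g => A * g 1 < g 2 ∧ A * g 2 < g 0) ∧ Occurs 2 (fun g => A * g 2 < g 1 ∧ A * g 1 < g 0) ∧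
    Occurs 2 (fun g => A * g 2 < g 1 ∧ A * g 0 < g 2) ∧ Occurs 2 (fun g => A * g 1 < g 0 ∧ A * g 0 < g 2) := by
  refine ⟨Occurs.mono 2 _ _ (shapes A 2 le_rfl 0).1 fun g hg => ?_,
    Occurs.mono 2 _ _ (shapes A 2 le_rfl 1).1 fun g hg => ?_,
    Occurs.mono 2 _ _ (shapes A 2 le_rfl 2).1 fun g hg => ?_, Occurs.mono 2 _ _ (shapes A 2 le_rfl 0).2 fun g hg => ?_,
    Occurs.mono 2 _ _ (shapes A 2 le_rfl 1).2 fun g hg => ?_, Occurs.mono 2 _ _ (shapes A 2 le_rfl 2).2 fun g hg => ?_⟩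
  all_goals
    simp only [Shape, Inc] at hg
    simp at hg
  · exact ⟨hg 0 (by norm_num), hg 1 (by norm_num)⟩
  · exact hg
  · exact ⟨hg.1 1 (by norm_num) (by norm_num), hg.2⟩
  · exact ⟨hg 0 (by norm_num), hg 1 (by norm_num)⟩
  · exact hg
  · exact ⟨hg.1 1 (by norm_num) (by norm_num), hg.2⟩

/-- three gaps -/
theorem three (A : ℕ) (hA : 1 ≤ A) (σ : Equiv.Perm (Fin 3)) :
    Occurs 2 (fun g => ∀ i j : Fin 3, σ i < σ j → A * g i < g j) := by
  obtain ⟨a1, b1, c1, a2, b2, c2⟩ := exp2 A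
  have tr : ∀ u v w : ℕ, A * u < v → A * v < w → A * u < w := by
    intro u v w h1 h2
    have h3 : 1 * v ≤ A * v := Nat.mul_le_mul_right v hA
    omega
  have key : ∀ x y z : Fin 3, x ≠ y → x ≠ z → y ≠ z →
      Occurs 2 (fun g => (x < y → A * g 0 < g 1) ∧ (x < z → A * g 0 < g 2) ∧ (y < z → A * g 1 < g 2) ∧
        (y < x → A * g 1 < g 0) ∧ (z < x → A * g 2 < g 0) ∧ (z < y → A * g 2 < g 1)) := by
    intro x y z hxy hxz hyz
    rcases lt_or_gt_of_ne hxy with h1 | h1 <;> rcases lt_or_gt_of_ne hxz with h2 | h2 <;>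
      rcases lt_or_gt_of_ne hyz with h3 | h3
    · refine Occurs.mono 2 _ _ a1 fun g hg => ?_
      have e := tr _ _ _ hg.1 hg.2
      refine ⟨?_, ?_, ?_, ?_, ?_, ?_⟩ <;> intro h <;> omega
    · refine Occurs.mono 2 _ _ b2 fun g hg => ?_
      have e := tr _ _ _ hg.2 hg.1
      refine ⟨?_, ?_, ?_, ?_, ?_, ?_⟩ <;> intro h <;> omega
    · omega
    · refine Occurs.mono 2 _ _ b1 fun g hg => ?_
      have e := tr _ _ _ hg.2 hg.1
      refine ⟨?_, ?_, ?_, ?_, ?_, ?_⟩ <;> intro h <;> omega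
    · refine Occurs.mono 2 _ _ c2 fun g hg => ?_
      have e := tr _ _ _ hg.1 hg.2
      refine ⟨?_, ?_, ?_, ?_, ?_, ?_⟩ <;> intro h <;> omega
    · omega
    · refine Occurs.mono 2 _ _ c1 fun g hg => ?_
      have e := tr _ _ _ hg.1 hg.2
      refine ⟨?_, ?_, ?_, ?_, ?_, ?_⟩ <;> intro h <;> omega
    · refine Occurs.mono 2 _ _ a2 fun g hg => ?_
      have e := tr _ _ _ hg.1 hg.2
      refine ⟨?_, ?_, ?_, ?_, ?_, ?_⟩ <;> intro h <;> omega
  refine Occurs.mono 2 _ _ (key (σ 0) (σ 1) (σ 2) (fun h => ?_) (fun h => ?_) (fun h => ?_)) fun g hg => ?_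
  · exact absurd (σ.injective h) (by decide)
  · exact absurd (σ.injective h) (by decide)
  · exact absurd (σ.injective h) (by decide)
  · intro i j
    obtain ⟨h1, h2, h3, h4, h5, h6⟩ := hg
    fin_cases i <;> fin_cases j <;> simp only [Fin.zero_eta, Fin.mk_one, Fin.reduceFinMk] <;>
      first
      | exact fun h => absurd h (lt_irrefl _)
      | assumption

/-- four gaps: all the up-down patterns -/
theorem four (A : ℕ) (hA : 1 ≤ A) (ε : Fin 3 → Bool) :
    Occurs 3 (fun g => ∀ i : Fin 3, if ε i then A * g i < g (i + 1) else A * g (i + 1) < g i) := by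
  have tr : ∀ u v w : ℕ, A * u < v → A * v < w → A * u < w := by
    intro u v w h1 h2
    have h3 : 1 * v ≤ A * v := Nat.mul_le_mul_right v hA
    omega
  have key : ∀ x y z : Bool,
      Occurs 3 (fun g => (if x then A * g 0 < g 1 else A * g 1 < g 0) ∧
        (if y then A * g 1 < g 2 else A * g 2 < g 1) ∧ (if z then A * g 2 < g 3 else A * g 3 < g 2)) := by
    intro x y z
    cases x <;> cases y <;> cases z <;> simp only [Bool.false_eq_true, if_false, if_true]
    · refine Occurs.mono 3 _ _ (shapes A 3 (by norm_num) 0).2 fun g hg => ?_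
      simp only [Shape, Inc] at hg
      simp at hg
      exact ⟨hg 2 (by norm_num), hg 1 (by norm_num), hg 0 (by norm_num)⟩
    · refine Occurs.mono 3 _ _ (shapes A 3 (by norm_num) 2).2 fun g hg => ?_
      simp only [Shape, Inc] at hg
      simp at hg
      have e1 : A * g 2 < g 1 := hg.1 1 (by norm_num) (by norm_num)
      have e2 : A * g 1 < g 0 := hg.1 2 (by norm_num) (by norm_num)
      exact ⟨e2, e1, tr _ _ _ (tr _ _ _ e1 e2) hg.2⟩
    · refine Occurs.mono 3 _ _ (shapes A 3 (by norm_num) 6).2 fun g hg => ?_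
      simp only [Shape, Inc] at hg
      simp at hg
      exact ⟨hg.2.2, hg.2.1, hg.1⟩
    · refine Occurs.mono 3 _ _ (shapes A 3 (by norm_num) 2).1 fun g hg => ?_
      simp only [Shape, Inc] at hg
      simp at hg
      have e1 : A * g 1 < g 2 := hg.1 1 (by norm_num) (by norm_num)
      have e2 : A * g 2 < g 3 := hg.1 2 (by norm_num) (by norm_num)
      exact ⟨tr _ _ _ (tr _ _ _ e1 e2) hg.2, e1, e2⟩
    · refine Occurs.mono 3 _ _ (shapes A 3 (by norm_num) 1).2 fun g hg => ?_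
      simp only [Shape, Inc] at hg
      simp at hg
      have e1 : A * g 3 < g 2 := hg.1 0 (by norm_num)
      have e2 : A * g 2 < g 1 := hg.1 1 (by norm_num)
      exact ⟨tr _ _ _ hg.2 (tr _ _ _ e1 e2), e2, e1⟩
    · refine Occurs.mono 3 _ _ (shapes A 3 (by norm_num) 6).1 fun g hg => ?_
      simp only [Shape, Inc] at hg
      simp at hg
      exact ⟨hg.1, hg.2.1, hg.2.2⟩
    · refine Occurs.mono 3 _ _ (shapes A 3 (by norm_num) 1).1 fun g hg => ?_
      simp only [Shape, Inc] at hg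
      simp at hg
      have e1 : A * g 0 < g 1 := hg.1 0 (by norm_num)
      have e2 : A * g 1 < g 2 := hg.1 1 (by norm_num)
      exact ⟨e1, e2, tr _ _ _ hg.2 (tr _ _ _ e1 e2)⟩
    · refine Occurs.mono 3 _ _ (shapes A 3 (by norm_num) 0).1 fun g hg => ?_
      simp only [Shape, Inc] at hg
      simp at hg
      exact ⟨hg 0 (by norm_num), hg 1 (by norm_num), hg 2 (by norm_num)⟩
  refine Occurs.mono 3 _ _ (key (ε 0) (ε 1) (ε 2)) fun g hg => ?_
  intro i
  obtain ⟨h1, h2, h3⟩ := hg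
  fin_cases i
  · exact h1
  · exact h2
  · exact h3

/-- **Order patterns of consecutive prime gaps.** For every factor `A ≥ 1` each of the following occurs at
all scales between `log X` and `c f(X)`, for at least `X^(7/8)` indices, in every residue class modulo a
squarefree number: all six orderings of three consecutive gaps, each gap more than `A` times the next smaller
one; all eight up-down patterns of four consecutive gaps, with ratios larger than `A`; for every `k ≥ 2` the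
seven order patterns `Shape A k T` of `k + 1` consecutive gaps and the reversed patterns. -/
theorem result (A : ℕ) (hA : 1 ≤ A) :
    (∀ σ : Equiv.Perm (Fin 3), Occurs 2 (fun g => ∀ i j : Fin 3, σ i < σ j → A * g i < g j)) ∧
    (∀ ε : Fin 3 → Bool,
      Occurs 3 (fun g => ∀ i : Fin 3, if ε i then A * g i < g (i + 1) else A * g (i + 1) < g i)) ∧
    (∀ k : ℕ, 2 ≤ k → ∀ T : Fin 7,
      Occurs k (Shape A k T) ∧ Occurs k (fun g => Shape A k T (fun l => g (k - l)))) :=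
  ⟨three A hA, four A hA, shapes A⟩

end Pool.Agent.Results.MP_3ec731_nt.OrderPatterns
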