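import Pool.Agent.W68.RoughCons

/-!
# Every admissible set is realised by consecutive almost primes with prescribed parity

Let `H` be any admissible finite set of natural numbers, `S` a subset of `H`, `m > 1` coprime to the size of
`S` (for example `m = 2` and `S` of odd size), `c` a residue modulo `m`, `R ≥ 0` and `ε > 0`. Then for at least
`x ^ (1 - ε)` of the integers `n ≤ x` (`x` large) each `n + h`, `h ∈ H`, is a product of a bounded number of
primes all larger than `x ^ δ`, EVERY other integer within distance `R` of `n` is composite with a bounded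
prime factor, and the number of prime factors of the product of the `n + h`, `h ∈ S`, is not `c` modulo `m`.

So `H` is the exact pattern of the integers without small prime factors around `n`, and for `H` with an odd
number of elements the total number of prime factors has the same parity as if all `n + h` were primes.

The theorem on residue classes of completely additive functions at almost prime values of linear forms
(`Pool.Agent.Results.MP_6a20cc_nt.ResidueClasses` of the starting files) is applied in a residue class in which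
the other integers of the window have small prime factors.
-/

namespace Pool.Agent.Results.MP_3ec731_nt.RoughRealisation

theorem result (H : Finset ℕ) (hadm : ∀ p : ℕ, p.Prime → ∃ r : ℕ, r < p ∧ ∀ h ∈ H, h % p ≠ r)
    (S : Finset ℕ) (hS : S ⊆ H) (m : ℕ) (hm : 1 < m) (hSm : Nat.Coprime S.card m) (R : ℕ) (ε : ℝ)
    (hε : 0 < ε) : ∃ (Q B : ℕ) (δ : ℝ), 0 < δ ∧ ∃ x₀ : ℝ, ∀ x : ℝ, x₀ ≤ x → ∀ c : ZMod m,
    x ^ (1 - ε) ≤ ({n : ℕ | 0 < n ∧ (n : ℝ) ≤ x ∧
      (∀ h ∈ H, ArithmeticFunction.cardFactors (n + h) ≤ B ∧
        ∀ p : ℕ, p.Prime → p ∣ n + h → x ^ δ < p) ∧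
      (∀ y : ℤ, |y| ≤ R → (∀ h ∈ H, y ≠ h) →
        ∃ p : ℕ, p.Prime ∧ p ≤ Q ∧ (p : ℤ) ∣ n + y ∧ (p : ℤ) < n + y) ∧
      ((∑ h ∈ S, ArithmeticFunction.cardFactors (n + h) : ℕ) : ZMod m) ≠ c}.ncard : ℝ) :=
  Pool.Agent.W68.RoughCons.main H hadm S hS m hm hSm R ε hε

end Pool.Agent.Results.MP_3ec731_nt.RoughRealisation
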